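import Pool.Agent.helper83.LE.SpecB

/-!
# LE, row AVE: an average
-/

set_option autoImplicit false

namespace Pool.Agent.LE

open Pool.Agent.helper58.DC Pool.Agent.DI Pool.Agent.GR Pool.Agent.OB Pool.Agent.DR Pool.Agent.FI Pool.Agent.FI3 Pool.Agent.FI4 Pool.Agent.FI4C

theorem AVE : AVE_stmt := by
  intro A _ _ _ N P q f l S hf hq hP hS
  classical
  obtain ⟨i₀, hi₀⟩ := hS
  have hPpos : (0 : ℝ) < (P i₀).card := lt_of_lt_of_le hq (hP i₀)
  have hH0 : 0 ≤ ∑ x, f x := Finset.sum_nonneg fun x _ => hf x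
  have hmem : ∀ w ∈ Fintype.piFinset P, ∀ a ∈ P i₀, Function.update w i₀ a ∈ Fintype.piFinset P := by
    intro w hw a ha
    rw [Fintype.mem_piFinset] at hw ⊢
    intro i
    by_cases h : i = i₀
    · subst h
      rw [Function.update_self]
      exact ha
    · rw [Function.update_of_ne h]
      exact hw i
  have key : ∑ x ∈ Fintype.piFinset P ×ˢ P i₀, f (l * ∏ i ∈ S, Function.update x.1 i₀ x.2 i) =
      ∑ x ∈ Fintype.piFinset P ×ˢ P i₀, f (l * ∏ i ∈ S, x.1 i) := by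
    refine Finset.sum_nbij' (fun x => (Function.update x.1 i₀ x.2, x.1 i₀))
      (fun x => (Function.update x.1 i₀ x.2, x.1 i₀)) ?_ ?_ ?_ ?_ ?_
    · intro x hx
      rw [Finset.mem_product] at hx ⊢
      exact ⟨hmem _ hx.1 _ hx.2, (Fintype.mem_piFinset.1 hx.1) i₀⟩
    · intro x hx
      rw [Finset.mem_product] at hx ⊢
      exact ⟨hmem _ hx.1 _ hx.2, (Fintype.mem_piFinset.1 hx.1) i₀⟩
    · intro x _
      simp
    · intro x _
      simp
    · intro x _
      rfl
  have h1 : ∀ w ∈ Fintype.piFinset P, ∑ a ∈ P i₀, f (l * ∏ i ∈ S, Function.update w i₀ a i) ≤ ∑ x, f x := by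
    intro w _
    have h2 : ∀ a ∈ P i₀, f (l * ∏ i ∈ S, Function.update w i₀ a i) =
        f (a * (l * ∏ i ∈ S.erase i₀, w i)) := by
      intro a _
      rw [← Finset.mul_prod_erase S _ hi₀, Function.update_self]
      have h3 : ∏ i ∈ S.erase i₀, Function.update w i₀ a i = ∏ i ∈ S.erase i₀, w i :=
        Finset.prod_congr rfl fun i hi => Function.update_of_ne (Finset.ne_of_mem_erase hi) _ _
      rw [h3]
      congr 1
      exact mul_left_comm _ _ _
    rw [Finset.sum_congr rfl h2]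
    have h4 : ∑ a ∈ P i₀, f (a * (l * ∏ i ∈ S.erase i₀, w i)) ≤
        ∑ a : A, f (a * (l * ∏ i ∈ S.erase i₀, w i)) :=
      Finset.sum_le_sum_of_subset_of_nonneg (Finset.subset_univ _) fun x _ _ => hf _
    refine h4.trans (le_of_eq ?_)
    exact Equiv.sum_comp (Equiv.mulRight (l * ∏ i ∈ S.erase i₀, w i)) f
  have h2 : ((P i₀).card : ℝ) * ∑ w ∈ Fintype.piFinset P, f (l * ∏ i ∈ S, w i) ≤
      ((Fintype.piFinset P).card : ℝ) * ∑ x, f x := by
    have h3 := key
    rw [Finset.sum_product, Finset.sum_product] at h3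
    have h4 : ∑ w ∈ Fintype.piFinset P, ∑ a ∈ P i₀, f (l * ∏ i ∈ S, w i) =
        ((P i₀).card : ℝ) * ∑ w ∈ Fintype.piFinset P, f (l * ∏ i ∈ S, w i) := by
      rw [Finset.mul_sum]
      refine Finset.sum_congr rfl fun w _ => ?_
      rw [Finset.sum_const, nsmul_eq_mul]
    rw [← h4, ← h3]
    calc ∑ w ∈ Fintype.piFinset P, ∑ a ∈ P i₀, f (l * ∏ i ∈ S, Function.update w i₀ a i)
        ≤ ∑ w ∈ Fintype.piFinset P, ∑ x, f x := Finset.sum_le_sum h1
      _ = ((Fintype.piFinset P).card : ℝ) * ∑ x, f x := by rw [Finset.sum_const, nsmul_eq_mul]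
  have h5 : ∑ w ∈ Fintype.piFinset P, f (l * ∏ i ∈ S, w i) ≤
      ((Fintype.piFinset P).card : ℝ) / (P i₀).card * ∑ x, f x := by
    rw [div_mul_eq_mul_div, le_div_iff₀ hPpos, mul_comm]
    exact h2
  refine h5.trans (mul_le_mul_of_nonneg_right ?_ hH0)
  exact div_le_div_of_nonneg_left (Nat.cast_nonneg _) hq (hP i₀)

end Pool.Agent.LE
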